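import Pool.Agent.H73.BA.Targets

/-! The sine theta theorem for bands. -/

set_option autoImplicit false

namespace Pool.Agent.H86.BA

open Pool.Agent.H73.BA

/-- the sine theta theorem -/
theorem pf_T_SIN : T_SIN := by
  intro E _ _ _ H H' hH e e' ρ ρ' g ν V W hρ hρ' hlt hν hB hW hn hD y hy
  have hg : 0 < ρ + g := by linarith
  have hgr : 0 < ρ + g - ρ' := by linarith
  set Q : E →L[ℂ] E := Vᗮ.starProjection with hQ
  have hQV : ∀ v ∈ V, Q v = 0 := fun v hv => V.starProjection_orthogonal_apply_eq_zero hv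
  have hQO : ∀ z ∈ Vᗮ, Q z = z := fun z hz => Submodule.starProjection_eq_self_iff.2 hz
  have hQn : ∀ x, ‖Q x‖ ≤ ‖x‖ := fun x => Vᗮ.norm_starProjection_apply_le x
  have hQm : ∀ x, Q x ∈ Vᗮ := fun x => Vᗮ.starProjection_apply_mem x
  have hsub : ∀ x, x - V.starProjection x = Q x := fun x =>
    (V.starProjection_orthogonal_val x).symm
  -- the operator commutes with the projection
  have hcom : ∀ x, Q (H x - (e : ℂ) • x) = H (Q x) - (e : ℂ) • Q x := by
    intro x
    have h1 : x = V.starProjection x + Q x := by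
      rw [← hsub x]
      abel
    have h2 : H x - (e : ℂ) • x = (H (V.starProjection x) - (e : ℂ) • V.starProjection x) +
        (H (Q x) - (e : ℂ) • Q x) := by
      conv_lhs => rw [h1]
      rw [map_add, smul_add]
      abel
    have h3 : H (V.starProjection x) - (e : ℂ) • V.starProjection x ∈ V := by
      have h4 := V.starProjection_apply_mem x
      exact V.sub_mem (hB.inv _ h4) (V.smul_mem _ h4)
    have h5 : H (Q x) - (e : ℂ) • Q x ∈ Vᗮ := by
      rw [Submodule.mem_orthogonal]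
      intro w hw
      have h6 := (Submodule.mem_orthogonal V (Q x)).1 (hQm x)
      rw [inner_sub_right, inner_smul_right, ← hH w (Q x), h6 _ (hB.inv w hw), h6 w hw,
        mul_zero, sub_zero]
    rw [h2, map_add, hQV _ h3, zero_add, hQO _ h5]
  -- one step
  have hstep : ∀ m : ℝ, (∀ y ∈ W, ‖Q y‖ ≤ m * ‖y‖) → 0 ≤ m →
      ∀ y ∈ W, (ρ + g) * ‖Q y‖ ≤ (m * ρ' + ν) * ‖y‖ := by
    intro m hm hm0 y hy
    have h1 : (ρ + g) * ‖Q y‖ ≤ ‖H (Q y) - (e : ℂ) • Q y‖ :=
      hB.far (Q y) fun w hw => (Submodule.mem_orthogonal V (Q y)).1 (hQm y) w hw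
    rw [← hcom] at h1
    have h2 : H y - (e : ℂ) • y = (H' y - (e' : ℂ) • y) +
        ((H y - (e : ℂ) • y) - (H' y - (e' : ℂ) • y)) := by abel
    have h3 : H' y - (e' : ℂ) • y ∈ W := W.sub_mem (hW y hy) (W.smul_mem _ hy)
    calc (ρ + g) * ‖Q y‖ ≤ ‖Q (H y - (e : ℂ) • y)‖ := h1
      _ = ‖Q (H' y - (e' : ℂ) • y) + Q ((H y - (e : ℂ) • y) - (H' y - (e' : ℂ) • y))‖ := by
          rw [← map_add, ← h2]
      _ ≤ ‖Q (H' y - (e' : ℂ) • y)‖ + ‖Q ((H y - (e : ℂ) • y) - (H' y - (e' : ℂ) • y))‖ :=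
          norm_add_le _ _
      _ ≤ m * (ρ' * ‖y‖) + ν * ‖y‖ := by
          refine add_le_add ?_ ((hQn _).trans (hD y hy))
          exact (hm _ h3).trans (mul_le_mul_of_nonneg_left (hn y hy) hm0)
      _ = _ := by ring
  -- iteration
  set q : ℝ := ρ' / (ρ + g) with hq
  have hq0 : 0 ≤ q := by positivity
  have hq1 : q < 1 := (div_lt_one hg).2 hlt
  have hit : ∀ n : ℕ, ∀ y ∈ W, ‖Q y‖ ≤ (ν / (ρ + g - ρ') + q ^ n) * ‖y‖ := by
    intro n
    induction n with
    | zero =>
      intro y _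
      rw [pow_zero]
      refine (hQn y).trans ?_
      have : 0 ≤ ν / (ρ + g - ρ') := by positivity
      exact le_mul_of_one_le_left (norm_nonneg y) (by linarith)
    | succ n ih =>
      intro y hy
      have h1 := hstep _ ih (by positivity) y hy
      have h2 : (ν / (ρ + g - ρ') + q ^ n) * ρ' + ν =
          (ρ + g) * (ν / (ρ + g - ρ') + q ^ (n + 1)) := by
        rw [pow_succ, hq]
        field_simp
        ring
      rw [h2, mul_assoc] at h1
      exact le_of_mul_le_mul_left h1 hg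
  have hlim : ‖Q y‖ ≤ (ν / (ρ + g - ρ') + 0) * ‖y‖ := by
    have h1 : Filter.Tendsto (fun n : ℕ => (ν / (ρ + g - ρ') + q ^ n) * ‖y‖) Filter.atTop
        (nhds ((ν / (ρ + g - ρ') + 0) * ‖y‖)) :=
      ((tendsto_pow_atTop_nhds_zero_of_lt_one hq0 hq1).const_add _).mul_const _
    exact ge_of_tendsto' h1 fun n => hit n y hy
  refine ⟨V.starProjection y, V.starProjection_apply_mem y, ?_, ?_⟩
  · intro w hw
    rw [hsub]
    exact (Submodule.mem_orthogonal V (Q y)).1 (hQm y) w hw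
  · rw [hsub]
    rw [add_zero, div_mul_eq_mul_div, le_div_iff₀ hgr] at hlim
    linarith

end Pool.Agent.H86.BA
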